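import Mathlib
import Pool.Agent.X197.TunedMetric

/-!
# A simple triod whose surjective semi-span is twice its surjective span (MP_afcd7b_gt, Q1)
-/

open Set Topology Metric

namespace Pool.Agent.Results.MP_afcd7b_gt.TriodSpanGap

/-- `T` is a simple triod: it is the union of three arcs `γ 0, γ 1, γ 2` (continuous injective
images of `[0,1]`) that share the common endpoint `o` and are otherwise pairwise disjoint. -/
def IsSimpleTriod (T : Type) [MetricSpace T] : Prop :=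
  ∃ (γ : Fin 3 → unitInterval → T) (o : T), (∀ i, Continuous (γ i) ∧ Function.Injective (γ i)) ∧
    (∀ i, γ i 0 = o) ∧ (∀ i j, i ≠ j → range (γ i) ∩ range (γ j) = {o}) ∧
    (⋃ i, range (γ i)) = univ

/-- The surjective span `σ*(T)`. -/
noncomputable def surjSpan (T : Type) [MetricSpace T] : ℝ :=
  sSup {a : ℝ | 0 ≤ a ∧ ∃ C : Set (T × T), IsConnected C ∧ Prod.fst '' C = univ ∧
    Prod.snd '' C = univ ∧ ∀ p ∈ C, a ≤ dist p.1 p.2}

/-- The surjective semi-span `σ₀*(T)`. -/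
noncomputable def surjSemiSpan (T : Type) [MetricSpace T] : ℝ :=
  sSup {a : ℝ | 0 ≤ a ∧ ∃ C : Set (T × T), IsConnected C ∧ (Prod.fst '' C = univ ∨
    Prod.snd '' C = univ) ∧ ∀ p ∈ C, a ≤ dist p.1 p.2}

/-- The underlying set of the triod. -/
def triodSet : Set (ℝ × ℝ) :=
  {p | (p.2 = 0 ∧ -1 ≤ p.1 ∧ p.1 ≤ 1) ∨ (p.1 = 0 ∧ 0 ≤ p.2 ∧ p.2 ≤ 1)}

/-- The triod with the metric of the plane. -/
abbrev T : Type := triodSet

theorem isCompact_triodSet : IsCompact triodSet := by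
  have h1 : IsClosed triodSet := by
    have e : triodSet = ({p : ℝ × ℝ | p.2 = 0} ∩ {p | -1 ≤ p.1} ∩ {p | p.1 ≤ 1}) ∪
        ({p : ℝ × ℝ | p.1 = 0} ∩ {p | 0 ≤ p.2} ∩ {p | p.2 ≤ 1}) := by
      ext p
      simp only [triodSet, mem_setOf_eq, mem_union, mem_inter_iff]
      tauto
    rw [e]
    refine IsClosed.union ?_ ?_
    · exact ((isClosed_eq continuous_snd continuous_const).inter
        (isClosed_le continuous_const continuous_fst)).inter
        (isClosed_le continuous_fst continuous_const)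
    · exact ((isClosed_eq continuous_fst continuous_const).inter
        (isClosed_le continuous_const continuous_snd)).inter
        (isClosed_le continuous_snd continuous_const)
  apply Metric.isCompact_of_isClosed_isBounded h1
  apply (Metric.isBounded_Icc ((-1:ℝ), (0:ℝ)) ((1:ℝ), (1:ℝ))).subset
  rintro p (⟨h1, h2, h3⟩ | ⟨h1, h2, h3⟩)
  · exact ⟨⟨h2, h1.ge⟩, ⟨h3, by rw [h1]; norm_num⟩⟩
  · exact ⟨⟨by rw [h1]; norm_num, h2⟩, ⟨by rw [h1]; norm_num, h3⟩⟩

instance : CompactSpace T := isCompact_iff_compactSpace.1 isCompact_triodSet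

/-- The five straight pieces of the path. -/
noncomputable def g (i : Fin 5) (t : ℝ) : (ℝ × ℝ) × (ℝ × ℝ) :=
  match i with
  | 0 => ((t - 1, 0), (t, 0))
  | 1 => ((0, t), (1 - t, 0))
  | 2 => ((0, 1 - t), (-t / 2, 0))
  | 3 => ((t / 2, 0), (-(1 - t) / 2, 0))
  | 4 => (((1 + t) / 2, 0), (t / 2, 0))

/-- The path in the square of the plane. -/
def Zr : Set ((ℝ × ℝ) × (ℝ × ℝ)) := ⋃ i : Fin 5, g i '' Icc 0 1

theorem g_mem (i : Fin 5) {t : ℝ} (h0 : 0 ≤ t) (h1 : t ≤ 1) :
    (g i t).1 ∈ triodSet ∧ (g i t).2 ∈ triodSet := by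
  fin_cases i
  · exact ⟨Or.inl ⟨rfl, by show -1 ≤ t - 1; linarith, by show t - 1 ≤ 1; linarith⟩,
      Or.inl ⟨rfl, by show -1 ≤ t; linarith, by show t ≤ 1; linarith⟩⟩
  · exact ⟨Or.inr ⟨rfl, by show 0 ≤ t; linarith, by show t ≤ 1; linarith⟩,
      Or.inl ⟨rfl, by show -1 ≤ 1 - t; linarith, by show 1 - t ≤ 1; linarith⟩⟩
  · exact ⟨Or.inr ⟨rfl, by show 0 ≤ 1 - t; linarith, by show 1 - t ≤ 1; linarith⟩,
      Or.inl ⟨rfl, by show -1 ≤ -t / 2; linarith, by show -t / 2 ≤ 1; linarith⟩⟩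
  · exact ⟨Or.inl ⟨rfl, by show -1 ≤ t / 2; linarith, by show t / 2 ≤ 1; linarith⟩,
      Or.inl ⟨rfl, by show -1 ≤ -(1 - t) / 2; linarith, by show -(1 - t) / 2 ≤ 1; linarith⟩⟩
  · exact ⟨Or.inl ⟨rfl, by show -1 ≤ (1 + t) / 2; linarith, by show (1 + t) / 2 ≤ 1; linarith⟩,
      Or.inl ⟨rfl, by show -1 ≤ t / 2; linarith, by show t / 2 ≤ 1; linarith⟩⟩

theorem g_continuous (i : Fin 5) : Continuous (g i) := by
  fin_cases i <;> (unfold g; fun_prop)

theorem g_glue : g 0 1 = g 1 0 ∧ g 1 1 = g 2 0 ∧ g 2 1 = g 3 0 ∧ g 3 1 = g 4 0 := by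
  refine ⟨?_, ?_, ?_, ?_⟩ <;> (unfold g; norm_num)

theorem Zr_preconnected : IsPreconnected Zr := by
  have hp : ∀ i, IsPreconnected (g i '' Icc (0 : ℝ) 1) := fun i =>
    isPreconnected_Icc.image _ (g_continuous i).continuousOn
  have hm0 : ∀ i, g i 0 ∈ g i '' Icc (0 : ℝ) 1 := fun i => ⟨0, by simp, rfl⟩
  have hm1 : ∀ i, g i 1 ∈ g i '' Icc (0 : ℝ) 1 := fun i => ⟨1, by simp, rfl⟩
  obtain ⟨h01, h12, h23, h34⟩ := g_glue
  have e : Zr = ((((g 0 '' Icc (0 : ℝ) 1) ∪ (g 1 '' Icc (0 : ℝ) 1)) ∪ (g 2 '' Icc (0 : ℝ) 1)) ∪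
      (g 3 '' Icc (0 : ℝ) 1)) ∪ (g 4 '' Icc (0 : ℝ) 1) := by
    ext p
    simp only [Zr, mem_iUnion, mem_union, Fin.exists_iff_succ, Fin.exists_fin_zero]
    constructor
    · rintro (h | h | h | h | h | h)
      · exact Or.inl (Or.inl (Or.inl (Or.inl h)))
      · exact Or.inl (Or.inl (Or.inl (Or.inr h)))
      · exact Or.inl (Or.inl (Or.inr h))
      · exact Or.inl (Or.inr h)
      · exact Or.inr h
      · exact absurd h (by simp)
    · rintro ((((h | h) | h) | h) | h)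
      · exact Or.inl h
      · exact Or.inr (Or.inl h)
      · exact Or.inr (Or.inr (Or.inl h))
      · exact Or.inr (Or.inr (Or.inr (Or.inl h)))
      · exact Or.inr (Or.inr (Or.inr (Or.inr (Or.inl h))))
  rw [e]
  refine IsPreconnected.union (g 3 1) (Or.inr (hm1 3)) (h34 ▸ hm0 4) ?_ (hp 4)
  refine IsPreconnected.union (g 2 1) (Or.inr (hm1 2)) (h23 ▸ hm0 3) ?_ (hp 3)
  refine IsPreconnected.union (g 1 1) (Or.inr (hm1 1)) (h12 ▸ hm0 2) ?_ (hp 2)
  exact IsPreconnected.union (g 0 1) (hm1 0) (h01 ▸ hm0 1) (hp 0) (hp 1)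

/-- The path in the square of the triod. -/
def Z : Set (T × T) := {p | (p.1.1, p.2.1) ∈ Zr}

theorem exists_Z (i : Fin 5) {t : ℝ} (h0 : 0 ≤ t) (h1 : t ≤ 1) :
    (⟨⟨(g i t).1, (g_mem i h0 h1).1⟩, ⟨(g i t).2, (g_mem i h0 h1).2⟩⟩ : T × T) ∈ Z :=
  mem_iUnion.2 ⟨i, t, ⟨h0, h1⟩, rfl⟩

theorem Z_connected : IsConnected Z := by
  refine ⟨⟨_, exists_Z 0 le_rfl zero_le_one⟩, ?_⟩
  let e : T × T → (ℝ × ℝ) × (ℝ × ℝ) := fun p => (p.1.1, p.2.1)
  have he : IsEmbedding e := IsEmbedding.subtypeVal.prodMap IsEmbedding.subtypeVal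
  rw [← he.isInducing.isPreconnected_image]
  have : e '' Z = Zr := by
    ext q
    constructor
    · rintro ⟨p, hp, rfl⟩; exact hp
    · intro hq
      obtain ⟨i, t, ⟨h0, h1⟩, rfl⟩ := mem_iUnion.1 hq
      exact ⟨_, exists_Z i h0 h1, rfl⟩
  rw [this]
  exact Zr_preconnected

theorem near_Z {x y : T} (h : infDist (x, y) Z < 1 / 20) : ∃ (i : Fin 5) (t : ℝ), 0 ≤ t ∧ t ≤ 1 ∧
    |x.1.1 - (g i t).1.1| < 1 / 20 ∧ |x.1.2 - (g i t).1.2| < 1 / 20 ∧
    |y.1.1 - (g i t).2.1| < 1 / 20 ∧ |y.1.2 - (g i t).2.2| < 1 / 20 := by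
  obtain ⟨z, hz, hd⟩ := (infDist_lt_iff ⟨_, exists_Z 0 le_rfl zero_le_one⟩).1 h
  obtain ⟨i, t, ⟨h0, h1⟩, hg⟩ := mem_iUnion.1 hz
  have e1 : z.1.1 = (g i t).1 := (congrArg Prod.fst hg).symm
  have e2 : z.2.1 = (g i t).2 := (congrArg Prod.snd hg).symm
  rw [Prod.dist_eq, max_lt_iff] at hd
  obtain ⟨hd1, hd2⟩ := hd
  rw [Subtype.dist_eq, Prod.dist_eq, max_lt_iff, e1] at hd1
  rw [Subtype.dist_eq, Prod.dist_eq, max_lt_iff, e2] at hd2
  exact ⟨i, t, h0, h1, hd1.1, hd1.2, hd2.1, hd2.2⟩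

theorem far : Pool.Agent.X197.TunedMetric.Far Z 20 := by
  intro x y h
  obtain ⟨i, t, h0, h1, a1, a2, b1, b2⟩ := near_Z h
  by_contra hcon
  push Not at hcon
  rw [Subtype.dist_eq, Prod.dist_eq, max_le_iff] at hcon
  obtain ⟨c1, c2⟩ := hcon
  rw [Real.dist_eq, abs_le] at c1 c2
  rw [abs_lt] at a1 a2 b1 b2
  fin_cases i <;> simp only [g] at a1 a2 b1 b2 <;>
    linarith [a1.1, a1.2, a2.1, a2.2, b1.1, b1.2, b2.1, b2.2, c1.1, c1.2, c2.1, c2.2]

theorem no_both {x y : T} (h : infDist (x, y) Z < 1 / 20) (h' : infDist (y, x) Z < 1 / 20) :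
    False := by
  obtain ⟨i, t, h0, h1, a1, a2, b1, b2⟩ := near_Z h
  obtain ⟨j, s, k0, k1, c1, c2, d1, d2⟩ := near_Z h'
  rw [abs_lt] at a1 a2 b1 b2 c1 c2 d1 d2
  fin_cases i <;> fin_cases j <;> simp only [g] at a1 a2 b1 b2 c1 c2 d1 d2 <;>
    linarith [a1.1, a1.2, a2.1, a2.2, b1.1, b1.2, b2.1, b2.2, c1.1, c1.2, c2.1, c2.2,
      d1.1, d1.2, d2.1, d2.2]

/-- the end of the third leg -/
def c : T := ⟨(0, 1), Or.inr ⟨rfl, zero_le_one, le_rfl⟩⟩

theorem not_near_c {x : T} (h : infDist (x, c) Z < 1 / 20) : False := by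
  obtain ⟨i, t, h0, h1, a1, a2, b1, b2⟩ := near_Z h
  rw [abs_lt] at b2
  fin_cases i <;> simp only [g, c] at b2 <;> linarith [b2.1, b2.2]

theorem fst_of (i : Fin 5) {t : ℝ} (h0 : 0 ≤ t) (h1 : t ≤ 1) (x : T) (hx : x.1 = (g i t).1) :
    ∃ y : T, (x, y) ∈ Z :=
  ⟨⟨(g i t).2, (g_mem i h0 h1).2⟩, mem_iUnion.2 ⟨i, t, ⟨h0, h1⟩, Prod.ext hx.symm rfl⟩⟩

theorem fst_onto (x : T) : ∃ y : T, (x, y) ∈ Z := by
  obtain ⟨⟨u, v⟩, h⟩ := x
  rcases h with ⟨h1, h2, h3⟩ | ⟨h1, h2, h3⟩
  · simp only at h1 h2 h3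
    subst h1
    rcases le_total u 0 with hu | hu
    · exact fst_of 0 (t := u + 1) (by linarith) (by linarith) _ (by simp [g])
    · rcases le_total u (1 / 2) with hu' | hu'
      · exact fst_of 3 (t := 2 * u) (by linarith) (by linarith) _ (by simp [g])
      · exact fst_of 4 (t := 2 * u - 1) (by linarith) (by linarith) _ (by simp [g])
  · simp only at h1 h2 h3
    subst h1
    exact fst_of 1 (t := v) h2 h3 _ (by simp [g])

/-- the three legs -/
noncomputable def leg (i : Fin 3) (t : unitInterval) : T :=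
  match i with
  | 0 => ⟨(-(t : ℝ), 0), Or.inl ⟨rfl, by show -1 ≤ -(t : ℝ); linarith [t.2.2],
      by show -(t : ℝ) ≤ 1; linarith [t.2.1]⟩⟩
  | 1 => ⟨((t : ℝ), 0), Or.inl ⟨rfl, by show -1 ≤ (t : ℝ); linarith [t.2.1], t.2.2⟩⟩
  | 2 => ⟨(0, (t : ℝ)), Or.inr ⟨rfl, t.2.1, t.2.2⟩⟩

/-- the junction -/
def o : T := ⟨(0, 0), Or.inl ⟨rfl, by norm_num, by norm_num⟩⟩

theorem leg_zero (i : Fin 3) : leg i 0 = o := by
  fin_cases i <;> (apply Subtype.ext; simp [leg, o])

theorem leg_inj (i : Fin 3) : Function.Injective (leg i) := by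
  intro s t h
  have h' := congrArg Subtype.val h
  apply Subtype.ext
  fin_cases i <;> simp [leg] at h' <;> exact h'

theorem leg_cont (i : Fin 3) : Continuous (leg i) := by
  fin_cases i
  · exact Continuous.subtype_mk (continuous_subtype_val.neg.prodMk continuous_const) _
  · exact Continuous.subtype_mk (continuous_subtype_val.prodMk continuous_const) _
  · exact Continuous.subtype_mk (continuous_const.prodMk continuous_subtype_val) _

theorem leg_inter {i j : Fin 3} (hij : i ≠ j) : range (leg i) ∩ range (leg j) = {o} := by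
  apply Subset.antisymm
  · rintro x ⟨⟨s, rfl⟩, ⟨t, ht⟩⟩
    have h' := congrArg Subtype.val ht
    have h1 : (leg j t).1.1 = (leg i s).1.1 := congrArg Prod.fst h'
    have h2 : (leg j t).1.2 = (leg i s).1.2 := congrArg Prod.snd h'
    have hs0 := s.2.1
    have ht0 := t.2.1
    have hs : (s : ℝ) = 0 := by
      fin_cases i <;> fin_cases j <;> simp only [leg] at h1 h2 <;>
        first
        | exact absurd rfl hij
        | linarith
    have hs' : s = 0 := Subtype.ext hs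
    rw [mem_singleton_iff, hs', leg_zero]
  · rintro x rfl
    exact ⟨⟨0, leg_zero i⟩, ⟨0, leg_zero j⟩⟩

theorem leg_cover : (⋃ i, range (leg i)) = univ := by
  rw [eq_univ_iff_forall]
  rintro ⟨⟨u, v⟩, h⟩
  rw [mem_iUnion]
  rcases h with ⟨h1, h2, h3⟩ | ⟨h1, h2, h3⟩
  · simp only at h1 h2 h3
    subst h1
    rcases le_total u 0 with hu | hu
    · exact ⟨0, ⟨⟨-u, by linarith, by linarith⟩, by apply Subtype.ext; simp [leg]⟩⟩
    · exact ⟨1, ⟨⟨u, hu, h3⟩, by apply Subtype.ext; simp [leg]⟩⟩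
  · simp only at h1 h2 h3
    subst h1
    exact ⟨2, ⟨⟨v, h2, h3⟩, by apply Subtype.ext; simp [leg]⟩⟩

/-- **Negative answer to Q1 of MP_afcd7b_gt.** There is a simple triod `T` with a compatible
metric such that the surjective span of `T` is at most `1` while its surjective semi-span is `2`.
In particular the two spans differ. -/
theorem result : ∃ (T : Type) (_ : MetricSpace T), IsSimpleTriod T ∧ surjSpan T ≤ 1 ∧
    surjSemiSpan T = 2 := by
  obtain ⟨T', m, e, hle, h2, hgt⟩ :=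
    Pool.Agent.X197.TunedMetric.exists_tuned (T := T) (Z := Z) (K := 20) (by norm_num) far
  refine ⟨T', m, ?_, ?_, ?_⟩
  · refine ⟨fun i t => e (leg i t), e o, fun i => ⟨e.continuous.comp (leg_cont i),
      e.injective.comp (leg_inj i)⟩, fun i => congrArg e (leg_zero i), ?_, ?_⟩
    · intro i j hij
      have h := leg_inter hij
      have h3 : ∀ k, range (fun t => e (leg k t)) = e '' range (leg k) := fun k =>
        range_comp e (leg k)
      rw [h3, h3, ← image_inter e.injective, h, image_singleton]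
    · have h3 : ∀ k, range (fun t => e (leg k t)) = e '' range (leg k) := fun k =>
        range_comp e (leg k)
      simp only [h3]
      rw [← image_iUnion, leg_cover, image_univ, e.surjective.range_eq]
  · -- the surjective span
    apply Real.sSup_le _ zero_le_one
    rintro a ⟨-, C, hC, hC1, hC2, ha⟩
    by_contra hcon
    push Not at hcon
    let f : T' × T' → T × T := fun p => (e.symm p.1, e.symm p.2)
    have hf : Continuous f := (e.symm.continuous.comp continuous_fst).prodMk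
      (e.symm.continuous.comp continuous_snd)
    have hcf := (continuous_infDist_pt Z).comp hf
    let A : Set (T' × T') := {p | infDist (f p) Z < 1 / 20}
    let B : Set (T' × T') := {p | infDist (f p).swap Z < 1 / 20}
    have hA : IsOpen A := isOpen_lt hcf continuous_const
    have hB : IsOpen B :=
      isOpen_lt ((continuous_infDist_pt Z).comp (continuous_swap.comp hf)) continuous_const
    have hAB : Disjoint A B := by
      rw [disjoint_left]
      intro p h1 h2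
      exact no_both (x := e.symm p.1) (y := e.symm p.2) h1 h2
    have hcov : C ⊆ A ∪ B := by
      intro p hp
      have h1 : 1 < dist (e (e.symm p.1)) (e (e.symm p.2)) := by
        rw [e.apply_symm_apply, e.apply_symm_apply]
        exact hcon.trans_le (ha p hp)
      exact hgt _ _ h1
    rcases hC.isPreconnected.subset_or_subset hA hB hAB hcov with h | h
    · have : e c ∈ Prod.snd '' C := by rw [hC2]; trivial
      obtain ⟨p, hp, hpc⟩ := this
      have h1 : infDist (f p) Z < 1 / 20 := h hp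
      have h3 : f p = (e.symm p.1, c) := by simp [f, hpc]
      rw [h3] at h1
      exact not_near_c h1
    · have : e c ∈ Prod.fst '' C := by rw [hC1]; trivial
      obtain ⟨p, hp, hpc⟩ := this
      have h1 : infDist (f p).swap Z < 1 / 20 := h hp
      have h3 : (f p).swap = (e.symm p.2, c) := by simp [f, hpc]
      rw [h3] at h1
      exact not_near_c h1
  · -- the surjective semi-span
    apply le_antisymm
    · apply Real.sSup_le _ (by norm_num)
      rintro a ⟨-, C, hC, -, ha⟩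
      obtain ⟨p, hp⟩ := hC.nonempty
      have h1 := hle (e.symm p.1) (e.symm p.2)
      rw [e.apply_symm_apply, e.apply_symm_apply] at h1
      exact (ha p hp).trans h1
    · apply le_csSup
      · refine ⟨2, ?_⟩
        rintro a ⟨-, C, hC, -, ha⟩
        obtain ⟨p, hp⟩ := hC.nonempty
        have h1 := hle (e.symm p.1) (e.symm p.2)
        rw [e.apply_symm_apply, e.apply_symm_apply] at h1
        exact (ha p hp).trans h1
      · refine ⟨by norm_num, (fun p : T × T => (e p.1, e p.2)) '' Z, ?_, Or.inl ?_, ?_⟩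
        · exact Z_connected.image _ ((e.continuous.comp continuous_fst).prodMk
            (e.continuous.comp continuous_snd)).continuousOn
        · rw [eq_univ_iff_forall]
          intro x
          obtain ⟨y, hy⟩ := fst_onto (e.symm x)
          exact ⟨(e (e.symm x), e y), ⟨_, hy, rfl⟩, e.apply_symm_apply x⟩
        · rintro _ ⟨p, hp, rfl⟩
          exact (h2 p hp).ge

end Pool.Agent.Results.MP_afcd7b_gt.TriodSpanGap
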